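import Pool.Agent.ZPT.Stmts

/-!
Squad ZPT, row IK: an isogeny of algebraic numbers seen in a p-adic field.
-/

set_option autoImplicit false

namespace Pool.Agent.ZPT.H92

open Polynomial Pool.Agent.ZPT

theorem ik (hIC : ICStmt) (hEH : EHStmt) (hTB : TBStmt) (hTS : TSStmt) (hTP : TPStmt) :
    IKStmt := by
  intro U Psi hU hP p hp hp5 K _ _ _ _ _ hE hPK ι x y hxy hx
  obtain ⟨m, hm, h0⟩ := hIC Psi hP (x : ℂ) (y : ℂ) hxy
  have h1 : ev2 (Psi m) x y = 0 := by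
    have h := hEH Qb ℂ (algebraMap Qb ℂ) (Psi m) x y
    have h2 : algebraMap Qb ℂ (ev2 (Psi m) x y) = 0 := by
      rw [h]
      exact h0
    exact (map_eq_zero_iff (algebraMap Qb ℂ) (algebraMap Qb ℂ).injective).1 h2
  have h3 : ev2 (Psi m) (ι x) (ι y) = 0 := by
    rw [← hEH Qb K ι (Psi m) x y, h1, map_zero]
  obtain ⟨q, hq0, hq1, hq⟩ := hTS U hU p hp hp5 K hE (ι x) hx
  rw [← hq] at h3
  obtain ⟨q', h0', h1', hy, a, ha, hqa⟩ := hTP U Psi K hPK m hm q (ι y) hq0 hq1 h3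
  refine ⟨?_, q, q', hq0, hq1, h0', h1', hq, hy, a ^ 2, m, Nat.one_le_pow _ _ ha, hm, hqa.symm⟩
  rw [← hy, (hTB U hU p hp hp5 K hE q' h0' h1').2]
  exact (one_lt_inv₀ h0').2 h1'

end Pool.Agent.ZPT.H92
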