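import Pool.Agent.ZPT.StmtsB
import Pool.Agent.Helper49_ZPT.CF

/-!
Squad ZPT, row ND: the boundary hypothesis in geometric form.
Chevalley's theorem gives a generic point of the image of the curve in the plane of the two
coordinates; the relation between them is a prime polynomial, whose other points are on the image
except above finitely many values of the first coordinate; the roots are bounded.
-/

set_option autoImplicit false

namespace Pool.Agent.ZPT.H92

open Polynomial Pool.Agent.ZPT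

noncomputable section

/-- substitution of two coordinates in a polynomial of two variables -/
def sub2 {n : ℕ} (i j : Fin n) : ℂ[X][X] →+* MvPolynomial (Fin n) ℂ :=
  Polynomial.eval₂RingHom
    (Polynomial.aeval (MvPolynomial.X i : MvPolynomial (Fin n) ℂ)).toRingHom (MvPolynomial.X j)

theorem sub2_CC {n : ℕ} (i j : Fin n) (c : ℂ) : sub2 i j (C (C c)) = MvPolynomial.C c := by
  simp [sub2, MvPolynomial.algebraMap_eq]

theorem sub2_C {n : ℕ} (i j : Fin n) (c : ℂ[X]) :
    sub2 i j (C c) = Polynomial.aeval (MvPolynomial.X i : MvPolynomial (Fin n) ℂ) c := by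
  simp [sub2]

theorem sub2_CX {n : ℕ} (i j : Fin n) : sub2 i j (C X) = MvPolynomial.X i := by
  simp [sub2]

theorem sub2_X {n : ℕ} (i j : Fin n) : sub2 i j X = MvPolynomial.X j := by
  simp [sub2]

theorem eval_sub2 {n : ℕ} (i j : Fin n) (x : Fin n → ℂ) (G : ℂ[X][X]) :
    MvPolynomial.eval x (sub2 i j G) = evalEval (x i) (x j) G := by
  have h : (MvPolynomial.eval x).comp (sub2 i j) = evalEvalRingHom (x i) (x j) := by
    apply Polynomial.ringHom_ext'
    · apply Polynomial.ringHom_ext'
      · ext c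
        simp [sub2_CC]
      · simp [sub2_CX]
    · simp [sub2_X]
  exact RingHom.congr_fun h G

/-- the maximal ideal of a point of the plane -/
theorem ker_max (u z : ℂ) : (RingHom.ker (evalEvalRingHom u z)).IsMaximal := by
  apply RingHom.ker_isMaximal_of_surjective
  intro c
  exact ⟨C (C c), by simp⟩

theorem fin_pres {n : ℕ} (P : Ideal (MvPolynomial (Fin n) ℂ)) (i j : Fin n) :
    ((Ideal.Quotient.mk P).comp (sub2 i j)).FinitePresentation := by
  rw [← RingHom.FinitePresentation.of_finiteType]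
  apply RingHom.FiniteType.of_comp_finiteType (f := (C : ℂ[X] →+* ℂ[X][X]).comp (C : ℂ →+* ℂ[X]))
  have h : (((Ideal.Quotient.mk P).comp (sub2 i j)).comp
      ((C : ℂ[X] →+* ℂ[X][X]).comp (C : ℂ →+* ℂ[X]))) =
      algebraMap ℂ (MvPolynomial (Fin n) ℂ ⧸ P) := by
    ext c
    simp only [RingHom.comp_apply, sub2_CC]
    rfl
  rw [h, RingHom.finiteType_algebraMap]
  infer_instance

/-- the generic point of the image -/
theorem generic {n : ℕ} (P : Ideal (MvPolynomial (Fin n) ℂ)) (hP : P.IsPrime) (i j : Fin n) :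
    ∃ b : ℂ[X][X], b ∉ P.comap (sub2 i j) ∧ ∀ u z : ℂ,
      (∀ H ∈ P.comap (sub2 i j), evalEval u z H = 0) → evalEval u z b ≠ 0 →
      ∃ x ∈ V P, x i = u ∧ x j = z := by
  have : IsDomain (MvPolynomial (Fin n) ℂ ⧸ P) := Ideal.Quotient.isDomain P
  set ψ : ℂ[X][X] →+* MvPolynomial (Fin n) ℂ ⧸ P := (Ideal.Quotient.mk P).comp (sub2 i j) with hψ
  have hc := PrimeSpectrum.isConstructible_range_comap (fin_pres P i j)
  obtain ⟨S, hS⟩ := PrimeSpectrum.exists_constructibleSetData_iff.2 hc
  have hbot : (⊥ : Ideal (MvPolynomial (Fin n) ℂ ⧸ P)).IsPrime := Ideal.isPrime_bot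
  have hK : (⊥ : Ideal (MvPolynomial (Fin n) ℂ ⧸ P)).comap ψ = P.comap (sub2 i j) := by
    rw [hψ, ← Ideal.comap_comap]
    congr 1
    rw [← RingHom.ker_eq_comap_bot, Ideal.mk_ker]
  have hmem : PrimeSpectrum.comap ψ ⟨⊥, hbot⟩ ∈ S.toSet := by
    rw [hS]
    exact ⟨_, rfl⟩
  simp only [PrimeSpectrum.ConstructibleSetData.toSet, Set.mem_iUnion] at hmem
  obtain ⟨D, hD, h1, h2⟩ := hmem
  rw [PrimeSpectrum.mem_zeroLocus] at h1 h2
  have h1' : ∀ k, D.g k ∈ P.comap (sub2 i j) := by
    intro k
    rw [← hK]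
    exact h1 ⟨k, rfl⟩
  have h2' : D.f ∉ P.comap (sub2 i j) := by
    rw [← hK]
    intro h
    apply h2
    intro y hy
    rw [Set.mem_singleton_iff.1 hy]
    exact h
  refine ⟨D.f, h2', ?_⟩
  intro u z hu hb
  have hm := ker_max u z
  have hq : (⟨RingHom.ker (evalEvalRingHom u z), hm.isPrime⟩ : PrimeSpectrum ℂ[X][X]) ∈
      S.toSet := by
    simp only [PrimeSpectrum.ConstructibleSetData.toSet, Set.mem_iUnion]
    refine ⟨D, hD, ?_, ?_⟩
    · rw [PrimeSpectrum.mem_zeroLocus]
      rintro _ ⟨k, rfl⟩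
      exact hu _ (h1' k)
    · rw [PrimeSpectrum.mem_zeroLocus]
      intro h
      exact hb (h (Set.mem_singleton _))
  rw [hS] at hq
  obtain ⟨Q, hQ⟩ := hq
  obtain ⟨M, hM, hQM⟩ := Ideal.exists_le_maximal Q.asIdeal Q.isPrime.ne_top
  have hM' : (M.comap (Ideal.Quotient.mk P)).IsMaximal :=
    Ideal.comap_isMaximal_of_surjective _ Ideal.Quotient.mk_surjective
  obtain ⟨x, hx⟩ := MvPolynomial.isMaximal_iff_eq_vanishingIdeal_singleton.1 hM'
  have hker : RingHom.ker (evalEvalRingHom u z) ≤ (M.comap (Ideal.Quotient.mk P)).comap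
      (sub2 i j) := by
    have h3 : RingHom.ker (evalEvalRingHom u z) = Q.asIdeal.comap ψ := by
      have := congrArg PrimeSpectrum.asIdeal hQ
      exact this.symm
    rw [h3, Ideal.comap_comap]
    exact Ideal.comap_mono hQM
  have hx' : ∀ F ∈ M.comap (Ideal.Quotient.mk P), MvPolynomial.eval x F = 0 := by
    intro F hF
    rw [hx] at hF
    have := (MvPolynomial.mem_vanishingIdeal_singleton_iff x F).1 hF
    simpa using this
  refine ⟨x, ?_, ?_, ?_⟩
  · intro F hF
    apply hx'
    rw [Ideal.mem_comap, Ideal.Quotient.eq_zero_iff_mem.2 hF]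
    exact zero_mem _
  · have h4 : (C X - C (C u) : ℂ[X][X]) ∈ RingHom.ker (evalEvalRingHom u z) := by
      rw [RingHom.mem_ker]
      simp
    have h5 := hx' _ (hker h4)
    rw [eval_sub2, evalEval_sub, evalEval_C, evalEval_C, eval_X, eval_C] at h5
    exact sub_eq_zero.1 h5
  · have h4 : (X - C (C z) : ℂ[X][X]) ∈ RingHom.ker (evalEvalRingHom u z) := by
      rw [RingHom.mem_ker]
      simp
    have h5 := hx' _ (hker h4)
    rw [eval_sub2] at h5
    simpa [sub_eq_zero] using h5

/-- comparison of the growth of two polynomials -/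
theorem growth (p q : ℂ[X]) (E : Set ℂ) (hE : E.Finite) (B c : ℝ)
    (h : ∀ u, u ∉ E → B < ‖u‖ → ‖p.eval u‖ ≤ c * ‖q.eval u‖) : p.natDegree ≤ q.natDegree := by
  by_contra hlt
  rw [not_le] at hlt
  have hd : q.degree < p.degree := degree_lt_degree hlt
  have hp0 : p ≠ 0 := ne_zero_of_degree_gt hd
  have ho := isLittleO_cobounded_of_degree_lt hd
  have hc : 0 < 1 / (2 * (|c| + 1)) := by positivity
  have h1 := ho.def hc
  have h2 : ∀ᶠ u in Bornology.cobounded ℂ, B < ‖u‖ :=
    tendsto_norm_cobounded_atTop.eventually_gt_atTop B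
  have h3 : ∀ᶠ u in Bornology.cobounded ℂ, u ∉ E := by
    have := (Bornology.isBounded_def.1 hE.isBounded)
    exact this
  have h4 : ∀ᶠ u in Bornology.cobounded ℂ, ¬ p.IsRoot u := by
    have := (Bornology.isBounded_def.1 (finite_setOfPred_isRoot hp0).isBounded)
    exact this
  obtain ⟨u, h1, h2, h3, h4⟩ := (h1.and (h2.and (h3.and h4))).exists
  have h5 := h u h3 h2
  have h6 : 0 < ‖p.eval u‖ := norm_pos_iff.2 h4
  have h7 : c * ‖q.eval u‖ ≤ |c| * (1 / (2 * (|c| + 1)) * ‖p.eval u‖) :=
    mul_le_mul (le_abs_self c) h1 (norm_nonneg _) (abs_nonneg c)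
  have h8 : |c| * (1 / (2 * (|c| + 1)) * ‖p.eval u‖) ≤ 1 / 2 * ‖p.eval u‖ := by
    rw [← mul_assoc]
    apply mul_le_mul_of_nonneg_right _ h6.le
    rw [mul_one_div, div_le_div_iff₀ (by positivity) (by norm_num)]
    nlinarith [abs_nonneg c]
  linarith

/-- a polynomial relation for one coordinate makes it constant -/
theorem const_of {n : ℕ} (P : Ideal (MvPolynomial (Fin n) ℂ)) (hP : P.IsPrime) (i j : Fin n)
    (R : ℂ[X]) (hR : R ≠ 0) (h : C R ∈ P.comap (sub2 i j)) :
    ∃ κ : ℂ, C (X - C κ) ∈ P.comap (sub2 i j) := by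
  have hK : ((P.comap (sub2 i j)).comap (C : ℂ[X] →+* ℂ[X][X])).IsPrime :=
    Ideal.comap_isPrime _ _
  have h1 : R ∈ (P.comap (sub2 i j)).comap (C : ℂ[X] →+* ℂ[X][X]) := h
  rw [(IsAlgClosed.splits R).eq_prod_roots] at h1
  rcases hK.mem_or_mem h1 with h2 | h2
  · exfalso
    apply hK.ne_top
    apply Ideal.eq_top_of_isUnit_mem _ h2
    exact isUnit_C.2 (isUnit_iff_ne_zero.2 (leadingCoeff_ne_zero.2 hR))
  · rw [hK.multiset_prod_mem_iff_exists_mem] at h2
    obtain ⟨q, hq, hq2⟩ := h2
    obtain ⟨κ, -, rfl⟩ := Multiset.mem_map.1 hq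
    exact ⟨κ, hq2⟩

/-- elimination -/
theorem elim (G H : ℂ[X][X]) (hG : Prime G) (hd : G.natDegree ≠ 0) (hH : ¬ G ∣ H) :
    ∃ R : ℂ[X], R ≠ 0 ∧ ∃ T S : ℂ[X][X], C R = H * T + G * S := by
  have : IsDomain (AdjoinRoot G) := AdjoinRoot.isDomain_of_prime hG
  have hH' : AdjoinRoot.mk G H ≠ 0 := fun h => hH (AdjoinRoot.mk_eq_zero.1 h)
  have halg : IsAlgebraic ℂ[X] (AdjoinRoot.mk G H) := by
    have h1 : (Algebra.adjoin ℂ[X] ({AdjoinRoot.root G} : Set (AdjoinRoot G))).IsAlgebraic :=
      Algebra.isAlgebraic_adjoin_singleton_iff.2 (AdjoinRoot.isAlgebraic_root hG.ne_zero)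
    rw [AdjoinRoot.adjoinRoot_eq_top] at h1
    exact h1 _ trivial
  obtain ⟨R, hR, t, ht⟩ := halg.exists_nonzero_dvd (mem_nonZeroDivisors_of_ne_zero hH')
  obtain ⟨T, rfl⟩ := AdjoinRoot.mk_surjective t
  refine ⟨R, hR, T, ?_⟩
  have h2 : AdjoinRoot.mk G (C R - H * T) = 0 := by
    rw [map_sub, map_mul, ← ht]
    exact sub_self _
  obtain ⟨S, hS⟩ := AdjoinRoot.mk_eq_zero.1 h2
  exact ⟨S, by rw [← hS]; ring⟩

theorem coeff_sub2 {n : ℕ} (i j : Fin n) (hij : i ≠ j) (G : ℂ[X][X]) (d : Fin n →₀ ℕ) :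
    MvPolynomial.coeff d (sub2 i j G) =
      if d = Finsupp.single i (d i) + Finsupp.single j (d j) then (G.coeff (d j)).coeff (d i)
      else 0 := by
  induction G using Polynomial.induction_on' with
  | add p q hp hq =>
    rw [map_add, MvPolynomial.coeff_add, hp, hq]
    split_ifs
    · simp
    · simp
  | monomial l c =>
    induction c using Polynomial.induction_on' with
    | add p q hp hq =>
      rw [map_add, map_add, MvPolynomial.coeff_add, hp, hq, coeff_add]
      split_ifs
      · simp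
      · simp
    | monomial m a =>
      have h1 : sub2 i j (monomial l (monomial m a)) =
          MvPolynomial.monomial (Finsupp.single i m + Finsupp.single j l) a := by
        rw [← C_mul_X_pow_eq_monomial, ← C_mul_X_pow_eq_monomial, map_mul, map_pow, C_mul, map_mul,
          C_pow, map_pow, sub2_CC, sub2_CX, sub2_X, MvPolynomial.monomial_eq]
        rw [Finsupp.prod_add_index' (by simp) (by intros; rw [pow_add]), Finsupp.prod_single_index
          (by simp), Finsupp.prod_single_index (by simp), mul_assoc]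
      rw [h1, MvPolynomial.coeff_monomial]
      have h2 : (Finsupp.single i m + Finsupp.single j l = d) ↔
          (d = Finsupp.single i (d i) + Finsupp.single j (d j) ∧ l = d j ∧ m = d i) := by
        constructor
        · intro h
          subst h
          have e1 : (Finsupp.single i m + Finsupp.single j l : Fin n →₀ ℕ) i = m := by
            simp [hij.symm]
          have e2 : (Finsupp.single i m + Finsupp.single j l : Fin n →₀ ℕ) j = l := by
            simp [hij]
          rw [e1, e2]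
          exact ⟨rfl, rfl, rfl⟩
        · rintro ⟨h, rfl, rfl⟩
          exact h.symm
      rw [coeff_monomial]
      by_cases h3 : d = Finsupp.single i (d i) + Finsupp.single j (d j)
      · rw [if_pos h3]
        by_cases h4 : l = d j
        · rw [if_pos h4, coeff_monomial]
          by_cases h5 : m = d i
          · rw [if_pos h5, if_pos (h2.2 ⟨h3, h4, h5⟩)]
          · rw [if_neg h5, if_neg (fun h => h5 (h2.1 h).2.2)]
        · rw [if_neg h4, if_neg (fun h => h4 (h2.1 h).2.1), coeff_zero]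
      · rw [if_neg h3, if_neg (fun h => h3 (h2.1 h).1)]

/-- the final form -/
theorem finish {n : ℕ} (P : Ideal (MvPolynomial (Fin n) ℂ)) (i j : Fin n) (hij : i ≠ j)
    (G : ℂ[X][X]) (hG : G ∈ P.comap (sub2 i j)) (hG0 : G ≠ 0)
    (hd : ∀ l, (G.coeff l).natDegree ≤ G.leadingCoeff.natDegree) :
    ∃ F ∈ P, F.vars ⊆ {i, j} ∧
      MvPolynomial.coeff (Finsupp.single i (MvPolynomial.degreeOf i F) +
        Finsupp.single j (MvPolynomial.degreeOf j F)) F ≠ 0 := by
  have key : ∀ d ∈ (sub2 i j G).support,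
      d = Finsupp.single i (d i) + Finsupp.single j (d j) ∧ (G.coeff (d j)).coeff (d i) ≠ 0 := by
    intro d hd
    rw [MvPolynomial.mem_support_iff, coeff_sub2 i j hij] at hd
    by_cases h : d = Finsupp.single i (d i) + Finsupp.single j (d j)
    · rw [if_pos h] at hd
      exact ⟨h, hd⟩
    · rw [if_neg h] at hd
      exact absurd rfl hd
  set d0 : Fin n →₀ ℕ := Finsupp.single i (G.leadingCoeff.natDegree) +
    Finsupp.single j G.natDegree with hd0
  have e1 : d0 i = G.leadingCoeff.natDegree := by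
    simp [hd0, hij.symm]
  have e2 : d0 j = G.natDegree := by
    simp [hd0, hij]
  have h0 : MvPolynomial.coeff d0 (sub2 i j G) ≠ 0 := by
    rw [coeff_sub2 i j hij, e1, e2, if_pos hd0]
    change G.leadingCoeff.leadingCoeff ≠ 0
    exact leadingCoeff_ne_zero.2 (leadingCoeff_ne_zero.2 hG0)
  have hs : d0 ∈ (sub2 i j G).support := MvPolynomial.mem_support_iff.2 h0
  have f1 : MvPolynomial.degreeOf i (sub2 i j G) = G.leadingCoeff.natDegree := by
    rw [MvPolynomial.degreeOf_eq_sup]
    apply le_antisymm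
    · apply Finset.sup_le
      intro d hd'
      exact (le_natDegree_of_ne_zero (key d hd').2).trans (hd _)
    · rw [← e1]
      exact Finset.le_sup (f := fun d : Fin n →₀ ℕ => d i) hs
  have f2 : MvPolynomial.degreeOf j (sub2 i j G) = G.natDegree := by
    rw [MvPolynomial.degreeOf_eq_sup]
    apply le_antisymm
    · apply Finset.sup_le
      intro d hd'
      apply le_natDegree_of_ne_zero
      intro h
      apply (key d hd').2
      rw [h, coeff_zero]
    · rw [← e2]
      exact Finset.le_sup (f := fun d : Fin n →₀ ℕ => d j) hs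
  refine ⟨sub2 i j G, hG, ?_, ?_⟩
  · intro v hv
    obtain ⟨d, hd', hv'⟩ := (MvPolynomial.mem_vars v).1 hv
    rw [(key d hd').1] at hv'
    have := Finsupp.support_add hv'
    rw [Finset.mem_union] at this
    rw [Finset.mem_insert, Finset.mem_singleton]
    rcases this with h | h
    · left
      exact Finset.mem_singleton.1 (Finsupp.support_single_subset h)
    · right
      exact Finset.mem_singleton.1 (Finsupp.support_single_subset h)
  · rw [f1, f2]
    exact h0

/-- row ND -/
theorem nd : NDStmt := by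
  intro n P hP hdim hB i j hij
  obtain ⟨B, hB⟩ := hB
  obtain ⟨b, hb, hgen⟩ := generic P hP i j
  have hKp : (P.comap (sub2 i j)).IsPrime := Ideal.comap_isPrime _ _
  by_cases hi : ∃ κ : ℂ, C (X - C κ) ∈ P.comap (sub2 i j)
  · obtain ⟨κ, hκ⟩ := hi
    apply finish P i j hij _ hκ
    · rw [Ne, C_eq_zero]
      exact X_sub_C_ne_zero κ
    · intro l
      rw [leadingCoeff_C, coeff_C]
      split_ifs
      · exact le_rfl
      · simp
  by_cases hbot : P.comap (sub2 i j) = ⊥
  · exfalso
    rw [hbot] at hb hgen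
    have hb0 : b ≠ 0 := hb
    obtain ⟨u, hu⟩ : ∃ u : ℂ, b.leadingCoeff.eval u ≠ 0 := by
      by_contra h
      push Not at h
      exact leadingCoeff_ne_zero.2 hb0 (Polynomial.funext (by simpa using h))
    have hbu : b.map (evalRingHom u) ≠ 0 := by
      intro h
      apply hu
      have := congrArg (fun p => coeff p b.natDegree) h
      simpa [coeff_map] using this
    have hF : (MvPolynomial.X i - MvPolynomial.C u : MvPolynomial (Fin n) ℂ) ∉ P := by
      intro h
      apply hi
      refine ⟨u, ?_⟩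
      rw [Ideal.mem_comap, C_sub, map_sub, sub2_CX, sub2_CC]
      exact h
    have hfin := H49.cf n P hP hdim _ hF
    have hinf : {z : ℂ | ¬ (b.map (evalRingHom u)).IsRoot z}.Infinite := by
      have := (finite_setOfPred_isRoot hbu).infinite_compl
      exact this
    apply hinf
    apply (hfin.image (fun x => x j)).subset
    intro z hz
    obtain ⟨x, hxP, hxi, hxj⟩ := hgen u z (by
      intro H hH
      rw [Ideal.mem_bot] at hH
      rw [hH, evalEval_zero]) (by
      rw [← map_evalRingHom_eval]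
      exact hz)
    refine ⟨x, ⟨hxP, ?_⟩, hxj⟩
    simp [hxi]
  obtain ⟨G, hGK, hG⟩ := Ideal.IsPrime.exists_mem_prime_of_ne_bot hKp hbot
  have hdeg : G.natDegree ≠ 0 := by
    intro h
    rw [natDegree_eq_zero] at h
    obtain ⟨R, rfl⟩ := h
    exact hi (const_of P hP i j R (fun h => hG.ne_zero (by rw [h, C_0])) hGK)
  have hdvd : ∀ H ∈ P.comap (sub2 i j), G ∣ H := by
    intro H hH
    by_contra hn
    obtain ⟨R, hR, T, S, hRS⟩ := elim G H hG hdeg hn
    apply hi
    apply const_of P hP i j R hR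
    rw [hRS]
    exact add_mem (Ideal.mul_mem_right _ _ hH) (Ideal.mul_mem_right _ _ hGK)
  have hbG : ¬ G ∣ b := by
    rintro ⟨S, rfl⟩
    exact hb (Ideal.mul_mem_right _ _ hGK)
  obtain ⟨R, hR, T, S, hRS⟩ := elim G b hG hdeg hbG
  have hlift : ∀ u z : ℂ, R.eval u ≠ 0 → evalEval u z G = 0 → ∃ x ∈ V P, x i = u ∧ x j = z := by
    intro u z hu hz
    apply hgen u z
    · intro H hH
      obtain ⟨W, rfl⟩ := hdvd H hH
      rw [evalEval_mul, hz, zero_mul]
    · intro h
      apply hu
      have := congrArg (evalEval u z) hRS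
      rw [evalEval_C, evalEval_add, evalEval_mul, evalEval_mul, h, hz, zero_mul, zero_mul,
        add_zero] at this
      exact this
  apply finish P i j hij G hGK hG.ne_zero
  intro l
  have hlead : G.leadingCoeff ≠ 0 := leadingCoeff_ne_zero.2 hG.ne_zero
  apply growth (G.coeff l) G.leadingCoeff ({u | R.IsRoot u} ∪ {u | G.leadingCoeff.IsRoot u})
    ((finite_setOfPred_isRoot hR).union (finite_setOfPred_isRoot hlead)) B
    (max B 1 ^ G.natDegree * G.natDegree.choose (G.natDegree / 2))
  intro u hu hBu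
  have hu1 : R.eval u ≠ 0 := fun h => hu (Or.inl h)
  have hu2 : G.leadingCoeff.eval u ≠ 0 := fun h => hu (Or.inr h)
  set p : ℂ[X] := G.map (evalRingHom u) with hp
  have hpl : p.leadingCoeff = G.leadingCoeff.eval u := by
    rw [hp, leadingCoeff_map_of_leadingCoeff_ne_zero]
    · rfl
    · exact hu2
  have hpd : p.natDegree = G.natDegree := by
    rw [hp, natDegree_map_of_leadingCoeff_ne_zero]
    exact hu2
  have hp0 : p ≠ 0 := by
    intro h
    rw [h, leadingCoeff_zero] at hpl
    exact hu2 hpl.symm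
  have hmon : (p * C (p.leadingCoeff)⁻¹).Monic := monic_mul_leadingCoeff_inv hp0
  have hnd : (p * C (p.leadingCoeff)⁻¹).natDegree ≤ G.natDegree := by
    rw [natDegree_mul_leadingCoeff_inv p hp0, hpd]
  have hroots : ∀ z ∈ ((p * C (p.leadingCoeff)⁻¹).map (RingHom.id ℂ)).roots, ‖z‖ ≤ B := by
    intro z hz
    rw [Polynomial.map_id, mem_roots hmon.ne_zero, IsRoot, eval_mul, eval_C] at hz
    have hz2 : p.eval z = 0 := by
      rcases mul_eq_zero.1 hz with h | h
      · exact h
      · exfalso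
        rw [hpl] at h
        exact hu2 (inv_eq_zero.1 h)
    rw [hp, map_evalRingHom_eval] at hz2
    obtain ⟨x, hxP, hxi, hxj⟩ := hlift u z hu1 hz2
    rcases hB x hxP i j hij with h | h
    · rw [hxi] at h
      exact absurd hBu (not_lt.2 h)
    · rwa [hxj] at h
  have hcoeff := coeff_bdd_of_roots_le (RingHom.id ℂ) hmon (IsAlgClosed.splits _) hnd hroots l
  rw [Polynomial.map_id, coeff_mul_C, norm_mul, norm_inv, hpl, hp, coeff_map] at hcoeff
  have hpos : 0 < ‖G.leadingCoeff.eval u‖ := norm_pos_iff.2 hu2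
  rwa [← div_eq_mul_inv, div_le_iff₀ hpos] at hcoeff

end

end Pool.Agent.ZPT.H92
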